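import Pool.Agent.WAT.Stmts
import Pool.Agent.Helper49_AT3.BRG
import Pool.Agent.Helper45_AT8.NRM

/-!
# Squad WAT, row TVA: the twisted sums vanish
-/

open scoped BigOperators

noncomputable section

namespace Pool.Agent.PP.TV.H89

open Pool.Agent.Helper51_AWC Pool.Agent.Helper79_WRA Pool.Agent.PP Pool.Agent.PP.KF
open Pool.Agent.PP.K9 Pool.Agent.PP.K9.H97 Pool.Agent.PP.H75 Pool.Agent.PP.T3 Pool.Agent.PP.T2
open Pool.Agent.PP.T5 Pool.Agent.PP.TB

attribute [local instance] Ideal.Quotient.field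

theorem re_lt_one {z : ℂ} (h : ‖z‖ = 1) (h1 : z ≠ 1) : z.re < 1 := by
  have hsq : z.re * z.re + z.im * z.im = 1 := by
    have h2 := Complex.normSq_apply z
    rw [Complex.normSq_eq_norm_sq, h] at h2
    linarith
  rcases lt_or_ge z.re 1 with h3 | h3
  · exact h3
  · exfalso
    have h4 : z.im = 0 := by nlinarith [mul_self_nonneg z.im]
    have h5 : z.re = 1 := by nlinarith [mul_self_nonneg z.im]
    exact h1 (Complex.ext (by rw [h5, Complex.one_re]) (by rw [h4, Complex.one_im]))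

theorem tva (tgi : TgiStmt) (zcp : TB.ZcpStmt) (poz : TB.PozStmt) (pjz : TB.PjzStmt) :
    TvaStmt := by
  intro ℓ hℓ M _ hM G _ _ e V γ b hZ hS lam hlam hne χ hχ
  classical
  have hp : ℓ.Prime := hℓ.out
  have hVf : Fintype V := Fintype.ofFinite V
  have hl0 : (ℓ : ℂ) ≠ 0 := by exact_mod_cast hp.ne_zero
  have hV0 : (Nat.card V : ℂ) ≠ 0 := by exact_mod_cast (Nat.card_pos (α := V)).ne'
  have hχI : χ ∈ Irr G := hχ.1
  obtain ⟨-, -, -, hi0, hil, hcz, hc1⟩ := zcp ℓ M hM G e V V γ b hZ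
  have hiC : (iz V V γ : ℂ) ≠ 0 := by exact_mod_cast hi0.ne'
  have hiR : ((iz V V γ : ℂ))⁻¹ ∈ RM M := by
    have h1 : rr M (((iz V V γ : ℕ) : ℤ) : ℂ) ≠ 0 := fun h =>
      hil (by exact_mod_cast (dvd_of_rr hp hM).1 h)
    rw [Int.cast_natCast] at h1
    exact (inv_RM (rr_nat (M := M) _).1 h1).1
  -- the sum
  obtain ⟨A, hA⟩ : ∃ A : ℂ, A = ∑ᶠ v : V, (cz V V γ (v : G) : ℂ) * lam v *
      mm M ℓ (Cu (v : G)) v (b v) χ χ := ⟨_, rfl⟩
  rw [← hA]
  -- step 1: `A` is in the local ring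
  have hAR : A ∈ RM M := by
    let mu : V →* ℂ :=
      { toFun := fun v => lam v⁻¹
        map_one' := by rw [inv_one, map_one]
        map_mul' := fun v w => by rw [mul_inv_rev, map_mul, mul_comm] }
    have h1 := hS χ hχ χ hχ mu
    have h2 : (Nat.card V : ℂ)⁻¹ * ∑ᶠ v : V, Az M ℓ V V γ b χ χ (v : G) * mu v⁻¹ = A := by
      rw [hA, mul_finsum]
      refine finsum_congr fun v => ?_
      have h3 : mu v⁻¹ = lam v := by
        change lam (v⁻¹)⁻¹ = lam v
        rw [inv_inv]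
      rw [h3]
      unfold Az
      field_simp
    rw [← h2]
    exact h1
  -- step 2: `A` is an integral multiple of `iz`
  obtain ⟨n, hn⟩ := tgi ℓ M hM G e V γ b hZ lam hlam χ hχI
  rw [← hA] at hn
  have hVp : IsPGroup ℓ V := hZ.tp.pg
  obtain ⟨s, hs⟩ : ∃ s, Nat.card V = ℓ ^ s := IsPGroup.iff_card.1 hVp
  have hsC : (Nat.card V : ℂ) = (ℓ : ℂ) ^ s := by rw [hs]; push_cast; rfl
  have hdv : (ℓ : ℤ) ^ s ∣ n := by
    have h1 := (RM M).mul_mem hAR hiR
    have h2 : A * (iz V V γ : ℂ)⁻¹ = (n : ℂ) / (ℓ : ℂ) ^ s := by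
      rw [← hsC]
      field_simp
      linear_combination hn
    rw [h2] at h1
    exact T8.H45.dvd_RM hp M hM s n h1
  obtain ⟨m, hm⟩ := hdv
  have hAm : A = (iz V V γ : ℂ) * m := by
    have h1 : (Nat.card V : ℂ) * A = (Nat.card V : ℂ) * ((iz V V γ : ℂ) * m) := by
      rw [hn, hm, hsC]
      push_cast
      ring
    exact mul_left_cancel₀ hV0 h1
  -- step 3: the size
  have hpos : ∀ v : V, ∃ x : ℝ, 0 < x ∧ mm M ℓ (Cu (v : G)) v (b v) χ χ = (x : ℂ) := fun v =>
    (poz ℓ M hM G e V V γ b hZ v v.2).2 χ hχ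
  choose x hx0 hx using hpos
  obtain ⟨⟨y, hy, hyle⟩, -⟩ := pjz ℓ M hM G e V V γ b hZ V le_rfl hZ.nrm χ hχI
  have hysum : y = ∑ v : V, (cz V V γ (v : G) : ℝ) * x v := by
    have h1 : (y : ℂ) = ((∑ v : V, (cz V V γ (v : G) : ℝ) * x v : ℝ) : ℂ) := by
      rw [← hy]
      unfold Pw
      rw [finsum_eq_sum_of_fintype]
      push_cast
      exact Finset.sum_congr rfl fun v _ => by rw [hx v]
    exact_mod_cast h1
  have hre : A.re = ∑ v : V, (cz V V γ (v : G) : ℝ) * x v * (lam v).re := by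
    rw [hA, finsum_eq_sum_of_fintype, Complex.re_sum]
    refine Finset.sum_congr rfl fun v _ => ?_
    rw [hx v]
    have h1 : (cz V V γ (v : G) : ℂ) * lam v * (x v : ℂ) =
        (((cz V V γ (v : G) : ℝ) * x v : ℝ) : ℂ) * lam v := by
      push_cast
      ring
    rw [h1, Complex.re_ofReal_mul]
  have hnorm : ∀ v : V, ‖lam v‖ = 1 := by
    intro v
    have h1 : (lam v) ^ Nat.card V = 1 := by
      rw [← map_pow, pow_card_eq_one', map_one]
    exact Complex.norm_eq_one_of_pow_eq_one h1 (Nat.card_pos (α := V)).ne'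
  have hapos : ∀ v : V, 0 < (cz V V γ (v : G) : ℝ) * x v := fun v =>
    mul_pos (by exact_mod_cast hcz v v.2) (hx0 v)
  have hup : A.re < y := by
    obtain ⟨v₀, hv₀⟩ := hne
    rw [hre, hysum]
    refine Finset.sum_lt_sum (fun v _ => ?_) ⟨v₀, Finset.mem_univ _, ?_⟩
    · have h1 : (lam v).re ≤ 1 := by
        have := Complex.re_le_norm (lam v)
        rwa [hnorm v] at this
      nlinarith [hapos v]
    · have h1 := re_lt_one (hnorm v₀) hv₀
      nlinarith [hapos v₀]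
  have hlo : -y < A.re := by
    rw [hre, hysum, ← Finset.sum_neg_distrib]
    refine Finset.sum_lt_sum (fun v _ => ?_) ⟨1, Finset.mem_univ _, ?_⟩
    · have h1 : -1 ≤ (lam v).re := by
        have h2 := Complex.abs_re_le_norm (lam v)
        rw [hnorm v] at h2
        exact (abs_le.1 h2).1
      nlinarith [hapos v]
    · rw [map_one, Complex.one_re]
      nlinarith [hapos 1]
  have hAre : A.re = (iz V V γ : ℝ) * m := by
    have h1 : A = (((iz V V γ : ℝ) * (m : ℝ) : ℝ) : ℂ) := by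
      rw [hAm]
      push_cast
      rfl
    rw [h1, Complex.ofReal_re]
  have hiR0 : (0 : ℝ) < (iz V V γ : ℝ) := by exact_mod_cast hi0
  have hm1 : (m : ℝ) < 1 := by
    by_contra h
    have h' := not_lt.1 h
    nlinarith
  have hm2 : (-1 : ℝ) < (m : ℝ) := by
    by_contra h
    have h' := not_lt.1 h
    nlinarith
  have hm0 : m = 0 := by
    have h1 : m < 1 := by exact_mod_cast hm1
    have h2 : -1 < m := by exact_mod_cast hm2
    omega
  rw [hAm, hm0, Int.cast_zero, mul_zero]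

end Pool.Agent.PP.TV.H89
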